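import Pool.Agent.PB.TRPh

/-!
# (TR), weak form for a second sea (helper33)

`tr_coreW`, **`tr_absW`**: integration over the heights of the half quanta when the near set has any radius
`a log k`, `a > 0`, and all exponents are only positive (no a priori lower bound is needed when the
limit is known to be `≠ 0` from another sea).
-/

set_option autoImplicit false

noncomputable section

open MeasureTheory Set Filter Topology Complex

namespace ISJ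

open PBTR

variable {a e m c c0 c1 B1 V0 A b : ℝ}

/-- **integration over the heights of the half quanta**, weak form -/
theorem tr_coreW {g0 : ℕ → ℂ} {n : ℕ → ℂ} {R F : ℕ → ℝ × ℝ → ℂ} {k1 E : ℝ × ℝ → ℂ}
    {W : ℕ → Set (ℝ × ℝ)} (ha : 0 < a) (he : e ≤ a / 4) (hc0 : 0 < c0) (hc1 : 0 < c1)
    (hm : 0 < m) (hB1 : 0 ≤ B1) (hV0 : 0 ≤ V0) (hWm : ∀ k, MeasurableSet (W k))
    (hWS : ∀ᶠ k : ℕ in atTop, nearS a k ⊆ W k)
    (hRm : ∀ᶠ k : ℕ in atTop,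
      AEStronglyMeasurable (fun τ => k1 τ * R k τ) (volume.restrict (W k)))
    (hKm : AEStronglyMeasurable (fun τ => k1 τ * E τ) volume)
    (H1 : ∀ᶠ k : ℕ in atTop, ‖n k - ∫ τ in W k, k1 τ * R k τ‖ ≤ (k : ℝ) ^ (-c0))
    (H2 : ∀ᶠ k : ℕ in atTop, ∀ τ ∈ W k,
      ‖k1 τ * R k τ‖ ≤ (k : ℝ) ^ e * Real.exp (-(mT τ)))
    (H3 : ∀ᶠ k : ℕ in atTop, ∀ τ ∈ nearS a k,
      ‖k1 τ‖ * ‖R k τ - E τ * F k τ‖ ≤ (k : ℝ) ^ (-c1))
    (H4 : ∀ τ, ‖k1 τ * E τ‖ ≤ A * Real.exp (-(3 * sT τ)))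
    (Hh : ∀ᶠ k : ℕ in atTop, ∀ τ ∈ nearS a k,
      ‖F k τ - g0 k‖ * Real.exp (-(3 * sT τ)) ≤ B1 * (k : ℝ) ^ (-m))
    (Hg : ∀ᶠ k : ℕ in atTop, ‖g0 k‖ ≤ V0 * (k : ℝ) ^ e) :
    ∃ c' : ℝ, 0 < c' ∧ ∃ B : ℝ, 0 ≤ B ∧ ∀ᶠ k : ℕ in atTop,
      ‖n k - g0 k * ∫ τ, k1 τ * E τ‖ ≤ B * (k : ℝ) ^ (-c') := by
  have hA : 0 ≤ A := by
    have h1 := H4 (0, 0)
    have h2 : sT (0, 0) = 0 := by simp [sT]
    rw [h2, mul_zero, neg_zero, Real.exp_zero, mul_one] at h1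
    exact (norm_nonneg _).trans h1
  -- the margin
  obtain ⟨μ, hμ, m1, m2, m3, m4⟩ : ∃ μ : ℝ, 0 < μ ∧ μ ≤ m ∧ μ ≤ c1 ∧ μ ≤ c0 ∧ μ ≤ a :=
    ⟨min (min m c1) (min c0 a), lt_min (lt_min hm hc1) (lt_min hc0 ha),
      (min_le_left _ _).trans (min_le_left _ _), (min_le_left _ _).trans (min_le_right _ _),
      (min_le_right _ _).trans (min_le_left _ _), (min_le_right _ _).trans (min_le_right _ _)⟩
  obtain ⟨θ, hθ, hθ1⟩ : ∃ θ : ℝ, 0 < θ ∧ θ * a = μ := ⟨μ / a, div_pos hμ ha, by field_simp⟩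
  -- integrals of the weights
  have hv := int_esT (θ := θ) hθ
  have hw : Integrable fun τ : ℝ × ℝ => Real.exp (-(1 / 4 * mT τ)) := by
    refine (int_esT (θ := 1 / 4) (by norm_num)).mono' ?_ (Eventually.of_forall fun τ => ?_)
    · exact (Real.continuous_exp.comp (continuous_const.mul continuous_mT).neg).aestronglyMeasurable
    · rw [Real.norm_of_nonneg (Real.exp_pos _).le]
      apply Real.exp_le_exp.2
      have h1 := two_sT_le τ
      have h2 := sT_nonneg τ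
      linarith
  set IV : ℝ := ∫ τ : ℝ × ℝ, Real.exp (-(θ * sT τ)) with hIV
  set IW : ℝ := ∫ τ : ℝ × ℝ, Real.exp (-(1 / 4 * mT τ)) with hIW
  have hIV0 : 0 ≤ IV := integral_nonneg fun τ => (Real.exp_pos _).le
  have hIW0 : 0 ≤ IW := integral_nonneg fun τ => (Real.exp_pos _).le
  have hKi : Integrable fun τ => k1 τ * E τ := by
    refine ((int_esT (θ := 3) (by norm_num)).const_mul A).mono' hKm (Eventually.of_forall fun τ => ?_)
    exact H4 τ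
  refine ⟨μ / 2, by linarith, 1 + ((1 + A * B1) * IV + (1 + V0 * A) * IW), by positivity, ?_⟩
  filter_upwards [hWS, hRm, H1, H2, H3, Hh, Hg, ev_log 0, ev_one] with k q1 q2 q3 q4 q5 q6 q7 hL hk
  set L := Real.log k with hLdef
  set RR : ℝ × ℝ → ℂ := (W k).indicator fun τ => k1 τ * R k τ with hRR
  have hkp : (0 : ℝ) < k := by linarith
  have hRRi : Integrable RR := by
    rw [hRR, integrable_indicator_iff (hWm k)]
    refine Integrable.mono' (g := fun τ => (k : ℝ) ^ e * Real.exp (-(1 / 4 * mT τ)))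
      ((hw.const_mul _).integrableOn) q2 ?_
    refine (ae_restrict_iff' (hWm k)).2 (Eventually.of_forall fun τ hτ => (q4 τ hτ).trans ?_)
    have h1 := mT_nonneg τ
    have h2 : Real.exp (-(mT τ)) ≤ Real.exp (-(1 / 4 * mT τ)) := by
      apply Real.exp_le_exp.2
      linarith
    have h3 : 0 ≤ (k : ℝ) ^ e := Real.rpow_nonneg hkp.le _
    exact mul_le_mul_of_nonneg_left h2 h3
  have hRRint : ∫ τ, RR τ = ∫ τ in W k, k1 τ * R k τ := by
    rw [hRR, integral_indicator (hWm k)]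
  -- near
  have near : ∀ τ ∈ nearS a k, ‖RR τ - g0 k * (k1 τ * E τ)‖ ≤
      ((1 + A * B1) * (k : ℝ) ^ (-(μ / 2))) * Real.exp (-(θ * sT τ)) := by
    intro τ hτ
    have h1 : RR τ = k1 τ * R k τ := by
      rw [hRR, Set.indicator_of_mem (q1 hτ)]
    have h2 : RR τ - g0 k * (k1 τ * E τ) = k1 τ * (R k τ - E τ * F k τ) +
        (k1 τ * E τ) * (F k τ - g0 k) := by rw [h1]; ring
    have h3 := q5 τ hτ
    have h4 := q6 τ hτ
    have h5 : ‖k1 τ * E τ‖ * ‖F k τ - g0 k‖ ≤ A * (B1 * (k : ℝ) ^ (-m)) := by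
      calc _ ≤ A * Real.exp (-(3 * sT τ)) * ‖F k τ - g0 k‖ := by
            gcongr
            exact H4 τ
        _ = A * (‖F k τ - g0 k‖ * Real.exp (-(3 * sT τ))) := by ring
        _ ≤ _ := by gcongr
    have h6 : (k : ℝ) ^ (-c1) ≤ (k : ℝ) ^ (-μ) :=
      Real.rpow_le_rpow_of_exponent_le hk (by linarith)
    have h7 : (k : ℝ) ^ (-m) ≤ (k : ℝ) ^ (-μ) :=
      Real.rpow_le_rpow_of_exponent_le hk (by linarith)
    have h8 : sT τ ≤ a / 2 * L := by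
      have h9 := two_sT_le τ
      have h10 : mT τ ≤ a * Real.log k := hτ
      linarith
    have h10 : (k : ℝ) ^ (-μ) ≤ (k : ℝ) ^ (-(μ / 2)) * Real.exp (-(θ * sT τ)) := by
      rw [rpow_log hk, rpow_log hk, ← Real.exp_add]
      apply Real.exp_le_exp.2
      have h11 : θ * sT τ ≤ θ * (a / 2 * L) := mul_le_mul_of_nonneg_left h8 hθ.le
      have h12 : θ * (a / 2 * L) = μ / 2 * L := by
        rw [← hθ1]
        ring
      rw [← hLdef]
      linarith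
    rw [h2]
    calc _ ≤ ‖k1 τ * (R k τ - E τ * F k τ)‖ + ‖(k1 τ * E τ) * (F k τ - g0 k)‖ :=
          norm_add_le _ _
      _ = ‖k1 τ‖ * ‖R k τ - E τ * F k τ‖ + ‖k1 τ * E τ‖ * ‖F k τ - g0 k‖ := by
          rw [norm_mul, norm_mul (k1 τ * E τ)]
      _ ≤ (k : ℝ) ^ (-μ) + A * (B1 * (k : ℝ) ^ (-μ)) := by
          refine add_le_add (h3.trans h6) (h5.trans ?_)
          gcongr
      _ = (1 + A * B1) * (k : ℝ) ^ (-μ) := by ring
      _ ≤ (1 + A * B1) * ((k : ℝ) ^ (-(μ / 2)) * Real.exp (-(θ * sT τ))) := by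
          gcongr
      _ = _ := by ring
  -- far
  have hout : ∀ τ ∉ nearS a k, Real.exp (-(mT τ)) ≤
      (k : ℝ) ^ (-(3 / 4 * a)) * Real.exp (-(1 / 4 * mT τ)) := by
    intro τ hτ
    have h1 : a * L < mT τ := by
      by_contra hn
      push Not at hn
      exact hτ hn
    rw [rpow_log hk, ← Real.exp_add]
    apply Real.exp_le_exp.2
    rw [← hLdef]
    linarith
  have far : ∀ τ ∉ nearS a k, ‖RR τ‖ ≤
      ((k : ℝ) ^ e * (k : ℝ) ^ (-(3 / 4 * a))) * Real.exp (-(1 / 4 * mT τ)) := by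
    intro τ hτ
    by_cases hW : τ ∈ W k
    · rw [hRR, Set.indicator_of_mem hW]
      refine (q4 τ hW).trans ?_
      rw [mul_assoc]
      exact mul_le_mul_of_nonneg_left (hout τ hτ) (Real.rpow_nonneg hkp.le _)
    · rw [hRR, Set.indicator_of_notMem hW, norm_zero]
      positivity
  have farK : ∀ τ ∉ nearS a k, ‖k1 τ * E τ‖ ≤
      (A * (k : ℝ) ^ (-(3 / 4 * a))) * Real.exp (-(1 / 4 * mT τ)) := by
    intro τ hτ
    refine (H4 τ).trans ?_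
    rw [mul_assoc]
    refine mul_le_mul_of_nonneg_left (le_trans ?_ (hout τ hτ)) hA
    apply Real.exp_le_exp.2
    have h1 := mT_le τ
    have h2 := sT_nonneg τ
    linarith
  have hfin := nearfar (μ := volume) (measurableSet_nearS a k) (g := g0 k) hRRi hKi hv hw
    (fun τ => (Real.exp_pos _).le) (fun τ => (Real.exp_pos _).le)
    (by positivity) (by positivity) near far farK (A := IV) (B := IW) le_rfl
    (setIntegral_le_integral hw (Eventually.of_forall fun τ => (Real.exp_pos _).le)) (by positivity)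
  rw [hRRint] at hfin
  have p1 : (k : ℝ) ^ (-c0) ≤ (k : ℝ) ^ (-(μ / 2)) :=
    Real.rpow_le_rpow_of_exponent_le hk (by linarith)
  have p2 : (k : ℝ) ^ e * (k : ℝ) ^ (-(3 / 4 * a)) ≤ (k : ℝ) ^ (-(μ / 2)) := by
    rw [← Real.rpow_add hkp]
    exact Real.rpow_le_rpow_of_exponent_le hk (by linarith)
  have p3 : ‖g0 k‖ * (A * (k : ℝ) ^ (-(3 / 4 * a))) ≤ V0 * A * (k : ℝ) ^ (-(μ / 2)) := by
    calc _ ≤ V0 * (k : ℝ) ^ e * (A * (k : ℝ) ^ (-(3 / 4 * a))) := by gcongr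
      _ = V0 * A * ((k : ℝ) ^ e * (k : ℝ) ^ (-(3 / 4 * a))) := by ring
      _ ≤ _ := by gcongr
  have e1 : n k - g0 k * ∫ τ, k1 τ * E τ = (n k - ∫ τ in W k, k1 τ * R k τ) +
      ((∫ τ in W k, k1 τ * R k τ) - g0 k * ∫ τ, k1 τ * E τ) := by ring
  rw [e1]
  refine (norm_add_le _ _).trans ?_
  have p4 : ((k : ℝ) ^ e * (k : ℝ) ^ (-(3 / 4 * a)) +
      ‖g0 k‖ * (A * (k : ℝ) ^ (-(3 / 4 * a)))) * IW ≤
      (((k : ℝ) ^ (-(μ / 2)) + V0 * A * (k : ℝ) ^ (-(μ / 2)))) * IW := by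
    gcongr
  calc _ ≤ (k : ℝ) ^ (-(μ / 2)) +
        ((1 + A * B1) * (k : ℝ) ^ (-(μ / 2)) * IV +
        (((k : ℝ) ^ (-(μ / 2)) + V0 * A * (k : ℝ) ^ (-(μ / 2)))) * IW) :=
        add_le_add (q3.trans p1) (hfin.trans (by gcongr))
    _ = _ := by ring

/-- a real function which is a phase times something close to `G J` -/
theorem abs_of {Y : ℝ} {u G J : ℂ} {r : ℝ} (hY : 0 ≤ Y) (hu : ‖u‖ = b) (hb : 0 < b)
    (h : ‖(Y : ℂ) / u - G * J‖ ≤ r) : |Y - b * ‖J‖ * ‖G‖| ≤ b * r := by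
  have hu0 : u ≠ 0 := by
    intro h0
    rw [h0, norm_zero] at hu
    linarith
  have h1 := abs_norm_sub_norm_le ((Y : ℂ) / u) (G * J)
  rw [norm_div, norm_real, Real.norm_of_nonneg hY, hu, norm_mul] at h1
  have h2 := h1.trans h
  have h3 : Y - b * ‖J‖ * ‖G‖ = b * (Y / b - ‖G‖ * ‖J‖) := by
    field_simp
  rw [h3, abs_mul, abs_of_pos hb]
  exact mul_le_mul_of_nonneg_left h2 hb.le

/-- **(TR) for a second sea**: `Y k` real, `≥ 0`, is `u k` times an integral over the heights, `‖u k‖ = b`;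
the function `F k` under the integral is close to `G` on the near set -/
theorem tr_absW {Y : ℕ → ℝ} {u : ℕ → ℂ} {R F : ℕ → ℝ × ℝ → ℂ} {k1 E : ℝ × ℝ → ℂ}
    {W : ℕ → Set (ℝ × ℝ)} {G : ℂ} (hY : ∀ᶠ k : ℕ in atTop, 0 ≤ Y k) (hb : 0 < b)
    (hu : ∀ᶠ k : ℕ in atTop, ‖u k‖ = b)
    (ha : 0 < a) (he0 : 0 ≤ e) (he : e ≤ a / 4) (hc0 : 0 < c0) (hc1 : 0 < c1)
    (hm : 0 < m) (hB1 : 0 ≤ B1) (hWm : ∀ k, MeasurableSet (W k))
    (hWS : ∀ᶠ k : ℕ in atTop, nearS a k ⊆ W k)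
    (hRm : ∀ᶠ k : ℕ in atTop,
      AEStronglyMeasurable (fun τ => k1 τ * R k τ) (volume.restrict (W k)))
    (hKm : AEStronglyMeasurable (fun τ => k1 τ * E τ) volume)
    (H1 : ∀ᶠ k : ℕ in atTop, ‖(Y k : ℂ) - u k * ∫ τ in W k, k1 τ * R k τ‖ ≤ (k : ℝ) ^ (-c0))
    (H2 : ∀ᶠ k : ℕ in atTop, ∀ τ ∈ W k,
      ‖k1 τ * R k τ‖ ≤ (k : ℝ) ^ e * Real.exp (-(mT τ)))
    (H3 : ∀ᶠ k : ℕ in atTop, ∀ τ ∈ nearS a k,
      ‖k1 τ‖ * ‖R k τ - E τ * F k τ‖ ≤ (k : ℝ) ^ (-c1))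
    (H4 : ∀ τ, ‖k1 τ * E τ‖ ≤ A * Real.exp (-(3 * sT τ)))
    (Hh : ∀ᶠ k : ℕ in atTop, ∀ τ ∈ nearS a k,
      ‖F k τ - G‖ * Real.exp (-(3 * sT τ)) ≤ B1 * (k : ℝ) ^ (-m)) :
    ∃ c' : ℝ, 0 < c' ∧ ∃ B : ℝ, 0 ≤ B ∧ ∀ᶠ k : ℕ in atTop,
      |Y k - b * ‖∫ τ, k1 τ * E τ‖ * ‖G‖| ≤ B * (k : ℝ) ^ (-c') := by
  have H1' : ∀ᶠ k : ℕ in atTop, ‖(Y k : ℂ) / u k - ∫ τ in W k, k1 τ * R k τ‖ ≤
      (k : ℝ) ^ (-(c0 / 2)) := by
    filter_upwards [H1, hu, absorb (B := 1 / b) (show c0 / 2 < c0 by linarith)] with k q1 q2 q3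
    have hu0 : u k ≠ 0 := by
      intro h
      rw [h, norm_zero] at q2
      linarith
    have e1 : (Y k : ℂ) / u k - ∫ τ in W k, k1 τ * R k τ =
        ((Y k : ℂ) - u k * ∫ τ in W k, k1 τ * R k τ) / u k := by
      field_simp
    rw [e1, norm_div, q2]
    refine le_trans ?_ q3
    rw [one_div_mul_eq_div]
    exact div_le_div_of_nonneg_right q1 hb.le
  obtain ⟨c', hc', B, hB, h⟩ := tr_coreW (g0 := fun _ => G) (n := fun k => (Y k : ℂ) / u k)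
    (V0 := ‖G‖) ha he (show 0 < c0 / 2 by linarith) hc1 hm hB1 (norm_nonneg _) hWm hWS hRm hKm
    H1' H2 H3 H4 Hh (by
      filter_upwards [ev_one] with k hk
      exact le_mul_of_one_le_right (norm_nonneg _) (Real.one_le_rpow hk he0))
  refine ⟨c', hc', b * B, by positivity, ?_⟩
  filter_upwards [h, hY, hu] with k h1 h2 h3
  exact (abs_of h2 h3 hb h1).trans_eq (mul_assoc _ _ _).symm

end ISJ

end
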